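import Pool.Agent.Lib.helper16.QfB1
import Pool.Agent.Lib.helper16.QfB2
import Pool.Agent.Lib.helper16.QfB3
import Pool.Agent.Lib.helper16.QfB4

namespace Pool.Agent.Results.MP_28a92f_nt.Counter

open Pool.Agent.Lib.helper16.Qf

/-- the underlying undirected graph of the functional graph of `x ↦ x ^ 2 + a` -/
def graph {p : ℕ} (a : ZMod p) : SimpleGraph (ZMod p) :=
  SimpleGraph.fromRel fun x y => y = x ^ 2 + a

def f (x : ZMod 1113643) : ZMod 1113643 := x ^ 2 + 278411

def Good (x : ZMod 1113643) : Prop := ∃ n, f^[n] x = 556822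

lemma fix : f 556822 = 556822 := by decide +kernel

lemma good_of {x : ZMod 1113643} (h : Good (f x)) : Good x := by
  obtain ⟨n, hn⟩ := h
  exact ⟨n + 1, hn⟩

lemma good_neg {x : ZMod 1113643} (h : Good (-x)) : Good x := by
  have h1 : f (-x) = f x := by simp [f]
  obtain ⟨n, hn⟩ := h
  refine ⟨n + 1, ?_⟩
  rw [Function.iterate_succ_apply, ← h1, ← Function.iterate_succ_apply,
    Function.iterate_succ_apply', hn, fix]

lemma good_G {x : ℕ} (h : Good (G x : ℕ)) : Good x := by
  apply good_of
  have h1 : (((x * x + 278411) % 1113643 : ℕ) : ZMod 1113643) = f x := by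
    rw [ZMod.natCast_mod]; simp [f, sq]
  have h2 : (x * x + 278411) % 1113643 < 1113643 := Nat.mod_lt _ (by norm_num)
  change Good (cn ((x * x + 278411) % 1113643) : ℕ) at h
  generalize (x * x + 278411) % 1113643 = y at h h1 h2
  unfold cn at h
  cases hc : Nat.ble y 556821
  · rw [hc] at h
    change Good ((1113643 - y : ℕ) : ZMod 1113643) at h
    rw [Nat.cast_sub h2.le, ZMod.natCast_self, zero_sub, h1] at h
    exact good_neg h
  · rw [hc] at h
    exact h1 ▸ h

lemma good_run (k : ℕ) : ∀ x : ℕ, run k x ≠ 1113643 → Good (run k x : ℕ) → Good x := by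
  induction k with
  | zero => intro x h; exact absurd rfl h
  | succ k ih =>
    intro x
    have e : run (k + 1) x = cond (Nat.ble 139264 (G x))
      (cond (Nat.beq (G x) 556821) (G x) (run k (G x))) (G x) := rfl
    rw [e]
    cases Nat.ble 139264 (G x)
    · rw [cond_false]
      exact fun _ h => good_G h
    · rw [cond_true]
      cases Nat.beq (G x) 556821
      · rw [cond_false]
        exact fun h1 h2 => good_G (ih _ h1 h2)
      · rw [cond_true]
        exact fun _ h => good_G h

lemma chk_spec {x : ℕ} (h : chk x = true) : run 64 x = 556821 ∨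
    (run 64 x < 139264 ∧ (139264 ≤ x ∨ rk (run 64 x) < rk x)) := by
  unfold chk at h
  generalize run 64 x = y at h ⊢
  simp only at h
  cases h1 : Nat.beq y 556821
  · right
    rw [h1, cond_false] at h
    cases h2 : Nat.ble 139264 y
    · rw [h2, cond_false] at h
      refine ⟨Nat.lt_of_not_le fun hc => ?_, ?_⟩
      · rw [Nat.ble_eq_true_of_le hc] at h2; exact absurd h2 (by simp)
      cases h3 : Nat.ble 139264 x
      · rw [h3, cond_false] at h
        exact Or.inr (Nat.le_of_ble_eq_true h)
      · exact Or.inl (Nat.le_of_ble_eq_true h3)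
    · rw [h2, cond_true] at h; exact absurd h (by simp)
  · exact Or.inl (Nat.eq_of_beq_eq_true h1)

lemma allR_spec (k : ℕ) : ∀ lo, allR k lo = true → ∀ x, x / 2 ^ k = lo → chk x = true := by
  induction k with
  | zero => intro lo h x hx; rw [pow_zero, Nat.div_one] at hx; exact hx ▸ h
  | succ k ih =>
    intro lo h x hx
    change cond (allR k (2 * lo)) (allR k (2 * lo + 1)) false = true at h
    rw [pow_succ, ← Nat.div_div_eq_div_mul] at hx
    cases h1 : allR k (2 * lo)
    · rw [h1] at h; exact absurd h (by simp)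
    · rw [h1, cond_true] at h
      have : x / 2 ^ k = 2 * lo ∨ x / 2 ^ k = 2 * lo + 1 := by omega
      rcases this with h2 | h2
      · exact ih _ h1 x h2
      · exact ih _ h x h2

lemma chk_all {x : ℕ} (hx : x < 557056) : chk x = true := by
  have h1 : x / 2 ^ 14 < 34 := by omega
  refine allR_spec 14 _ ?_ x rfl
  generalize x / 2 ^ 14 = j at h1
  interval_cases j
  exacts [c0, c1, c2, c3, c4, c5, c6, c7, c8, c9, c10, c11, c12, c13, c14, c15, c16, c17, c18, c19, c20, c21, c22, c23, c24, c25, c26, c27, c28, c29, c30, c31, c32, c33]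

lemma good_hp : Good ((556821 : ℕ) : ZMod 1113643) := ⟨1, by decide +kernel⟩

lemma good_small : ∀ r x : ℕ, rk x = r → x < 139264 → Good x := by
  intro r
  induction r using Nat.strong_induction_on with
  | _ r ih =>
    intro x hr hx
    rcases chk_spec (chk_all (x := x) (by omega)) with h | ⟨h1, h2 | h2⟩
    · exact good_run 64 x (by omega) (h ▸ good_hp)
    · omega
    · exact good_run 64 x (by omega) (ih _ (hr ▸ h2) _ rfl h1)

lemma good_half {x : ℕ} (hx : x < 557056) : Good x := by
  rcases chk_spec (chk_all hx) with h | ⟨h1, -⟩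
  · exact good_run 64 x (by omega) (h ▸ good_hp)
  · exact good_run 64 x (by omega) (good_small _ _ rfl h1)

lemma good_all (x : ZMod 1113643) : Good x := by
  have h1 : x.val < 1113643 := ZMod.val_lt x
  rcases lt_or_ge x.val 557056 with h | h
  · simpa using good_half h
  · apply good_neg
    have h2 := good_half (x := 1113643 - x.val) (by omega)
    rwa [Nat.cast_sub h1.le, ZMod.natCast_self, zero_sub, ZMod.natCast_zmod_val] at h2

theorem result : ∃ (p : ℕ) (a : ZMod p), p.Prime ∧ 7 < p ∧ (graph a).Connected ∧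
    ∃ x₀ : ZMod p, x₀ ^ 2 + a = x₀ ∧
      ∀ x ∈ Function.periodicPts (fun x : ZMod p => x ^ 2 + a), x = x₀ := by
  refine ⟨1113643, 278411, by norm_num, by norm_num, ?_, 556822, fix, ?_⟩
  · have key : ∀ n x, f^[n] x = 556822 → (graph 278411).Reachable x 556822 := by
      intro n
      induction n with
      | zero => rintro x rfl; rfl
      | succ n ih =>
        intro x hx
        refine SimpleGraph.Reachable.trans ?_ (ih (f x) hx)
        by_cases h : x = f x
        · rw [← h]
        · exact SimpleGraph.Adj.reachable ((SimpleGraph.fromRel_adj _ _ _).2 ⟨h, Or.inl rfl⟩)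
    refine ⟨fun x y => ?_⟩
    obtain ⟨n, hn⟩ := good_all x
    obtain ⟨m, hm⟩ := good_all y
    exact (key n x hn).trans (key m y hm).symm
  · rintro x ⟨m, hm, hx⟩
    obtain ⟨n, hn⟩ := good_all x
    have h1 : f^[m * n] x = x := Function.IsPeriodicPt.mul_const (f := f) hx n
    obtain ⟨k, hk⟩ := Nat.exists_eq_add_of_le' (Nat.le_mul_of_pos_left n hm)
    rw [← h1, hk, Function.iterate_add_apply, hn]
    exact Function.iterate_fixed fix k

end Pool.Agent.Results.MP_28a92f_nt.Counter
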